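import Pool.Agent.N728.QU.DefG

set_option autoImplicit false

/-! Project QV (helper728), subtask OFF: the off-diagonal terms, uniformly in the constant term, for
every `a ≠ 0`. Copy of the proof of helper457 (`a = 1` or `-1`), with the bound of `BOXu` used for a
larger constant, which depends on `a`. -/

namespace Pool.Agent.N433.QV

open Finset Pool.Agent.N728.QL Pool.Agent.N728.QG Pool.Agent.N728.QU

lemma not_dvd_a {w p : ℕ} {a : ℤ} (ha : a ≠ 0) (haw : a.natAbs ≤ w) (hp : w < p) : ¬ (p : ℤ) ∣ a := by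
  intro h
  have h1 : p ∣ a.natAbs := Int.natCast_dvd.1 h
  have h2 := Nat.le_of_dvd (Int.natAbs_pos.2 ha) h1
  omega

lemma cop_div1 {w y M m : ℕ} {a : ℤ} (ha : a ≠ 0) (haw : a.natAbs ≤ w) (hM : M ∣ PP w y) (hm : m ∣ M) :
    IsCoprime ((M / m : ℕ) : ℤ) (a * m) := by
  have hsq : Squarefree M := (PP_squarefree w y).squarefree_of_dvd hM
  have e : M = M / m * m := (Nat.div_mul_cancel hm).symm
  have h1 : Nat.Coprime (M / m) m := by
    rw [e] at hsq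
    exact Nat.coprime_of_squarefree_mul hsq
  have h2 : IsCoprime ((M / m : ℕ) : ℤ) (m : ℤ) := Nat.isCoprime_iff_coprime.2 h1
  have h3 : IsCoprime ((M / m : ℕ) : ℤ) a := by
    rw [Int.isCoprime_iff_nat_coprime, Int.natAbs_natCast]
    refine Nat.Coprime.symm (Nat.coprime_of_dvd ?_)
    intro p hp hpa hpm
    have h4 := (dvd_PP hp ((hpm.trans (Nat.div_dvd_of_dvd hm)).trans hM)).1
    exact not_dvd_a ha haw h4 (Int.natCast_dvd.2 hpa)
  exact h3.mul_right h2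

lemma natAbs_am (a : ℤ) (m : ℕ) : (a * (m : ℤ)).natAbs = a.natAbs * m := by
  rw [Int.natAbs_mul, Int.natAbs_natCast]

/-- the bound for a larger constant -/
lemma const_mono {K1 n k : ℕ} (hK1 : 1 ≤ K1) (hn : 1 ≤ n) {L : ℝ} (hL : 1 ≤ L) :
    (K1 : ℝ) * L ^ K1 * (2 : ℝ) ^ (-((k : ℝ) / K1)) ≤
      ((K1 * n : ℕ) : ℝ) * L ^ (K1 * n) * (2 : ℝ) ^ (-((k : ℝ) / ((K1 * n : ℕ) : ℝ))) := by
  have h1 : K1 ≤ K1 * n := Nat.le_mul_of_pos_right _ hn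
  have h1r : (K1 : ℝ) ≤ ((K1 * n : ℕ) : ℝ) := by exact_mod_cast h1
  have h0 : (0 : ℝ) < K1 := by exact_mod_cast hK1
  have h2 : L ^ K1 ≤ L ^ (K1 * n) := pow_le_pow_right₀ hL h1
  have h3 : (2 : ℝ) ^ (-((k : ℝ) / K1)) ≤ (2 : ℝ) ^ (-((k : ℝ) / ((K1 * n : ℕ) : ℝ))) := by
    apply Real.rpow_le_rpow_of_exponent_le (by norm_num)
    rw [neg_le_neg_iff]
    exact div_le_div_of_nonneg_left (Nat.cast_nonneg _) h0 h1r
  have hL0 : (0 : ℝ) ≤ L := by linarith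
  gcongr

theorem t_OFFg (h1 : S_GVNu) (h2 : ∀ s0, S_BOXu s0) (h3 : S_MER) (s0 : ℕ) (a : ℤ) (ha : a ≠ 0) :
    S_OFFu s0 a := by
  obtain ⟨K1, hK1', hbox⟩ := h2 s0
  have han : 1 ≤ a.natAbs := Int.natAbs_pos.2 ha
  obtain ⟨K', hKe⟩ : ∃ K' : ℕ, K' = K1 * a.natAbs := ⟨_, rfl⟩
  have hK1K : K1 ≤ K' := by rw [hKe]; exact Nat.le_mul_of_pos_right _ han
  have haK : a.natAbs ≤ K' := by rw [hKe]; exact Nat.le_mul_of_pos_left _ hK1'
  have hK' : 1 ≤ K' := hK1'.trans hK1K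
  refine ⟨4 * K', by omega, ?_⟩
  intro k w y M0 K hk hw hwy ε hε
  have hw2 : 2 ≤ w := by omega
  have haw : a.natAbs ≤ w := by omega
  have hy3 : 3 ≤ y := by omega
  obtain ⟨z0, hz⟩ := hbox k w y (a.natAbs * M0) (by omega) hw2 hwy hy3 (ε ^ 4 / 192) (by positivity)
  refine ⟨z0, fun z hzz => ?_⟩
  obtain ⟨B0, hB0⟩ := hz z hzz
  refine ⟨max (max B0 K) (max ((M0 + 1) ^ 3) 1), ?_⟩
  intro B hBB z1 X Y M m m' c F hc hcB hz1 hz1k hM hMM hm hm' hX hX2 hY2 hY hY' hF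
  have hBB0 : B0 ≤ B := (le_max_left _ _).trans ((le_max_left _ _).trans hBB)
  have hBK : K ≤ B := (le_max_right _ _).trans ((le_max_left _ _).trans hBB)
  have hBM : (M0 + 1) ^ 3 ≤ B := (le_max_left _ _).trans ((le_max_right _ _).trans hBB)
  have hB1 : 1 ≤ B := (le_max_right _ _).trans ((le_max_right _ _).trans hBB)
  have hM0 : 0 < M := Nat.pos_of_dvd_of_pos hM (PP_pos w y)
  have hm0 : 0 < m := Nat.pos_of_dvd_of_pos hm hM0
  have hm0' : 0 < m' := Nat.pos_of_dvd_of_pos hm' hM0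
  have hA0 : 0 < M / m := Nat.div_pos (Nat.le_of_dvd hM0 hm) hm0
  have hA0' : 0 < M / m' := Nat.div_pos (Nat.le_of_dvd hM0 hm') hm0'
  have hM0X : M0 ≤ X := by
    have h1 : (M0 + 1) ^ 3 ≤ X ^ 3 := hBM.trans hX
    have h2 : M0 + 1 ≤ X := by
      by_contra hcon
      have : X ^ 3 < (M0 + 1) ^ 3 := Nat.pow_lt_pow_left (by omega) (by norm_num)
      omega
    omega
  have hAX : M / m ≤ X := ((Nat.div_le_self _ _).trans hMM).trans hM0X
  have hAX' : M / m' ≤ X := ((Nat.div_le_self _ _).trans hMM).trans hM0X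
  have hmM0 : m ≤ M0 := (Nat.le_of_dvd hM0 hm).trans hMM
  have hmM0' : m' ≤ M0 := (Nat.le_of_dvd hM0 hm').trans hMM
  have hM01 : 1 ≤ M0 := hM0.trans_le hMM
  have hlogy : 1 ≤ Real.log y := by
    have h1 : Real.exp 1 ≤ y := by
      have := Real.exp_one_lt_d9
      have : (3 : ℝ) ≤ y := by exact_mod_cast hy3
      linarith
    rwa [Real.le_log_iff_exp_le (by linarith [Real.exp_pos 1])]
  have hX1 : 1 ≤ X := hM01.trans hM0X
  have hY1 : 1 ≤ Y := by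
    by_contra hcon
    have : Y = 0 := by omega
    subst this
    omega
  have hsupp : ∀ s : ℤ, ¬ ((B : ℤ) < s ∧ s ≤ (B : ℤ) + ((4 * B : ℕ) : ℤ)) → F s = 0 := by
    intro s hs
    apply hF.2
    intro h
    apply hs
    refine ⟨h.1, ?_⟩
    push_cast
    linarith [h.2]
  have hg := h1 X Y (4 * B) (M / m) (M / m') (a * m) (a * m') B B (fB c w y z z1 X Y M) F F (by omega) hA0 hA0'
    (cop_div1 ha haw hM hm) (cop_div1 ha haw hM hm') hAX hAX' (by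
      intro x t hxt
      unfold fB
      rw [if_neg hxt]) hF.1 hF.1 hsupp hsupp
  have hYB : B ≤ Y ^ 3 := by
    have h1 : B ≤ M0 * Y := hY.trans (Nat.mul_le_mul_right _ ((Nat.div_le_self _ _).trans hMM))
    have h2 : B * (M0 + 1) ^ 3 ≤ B * B := Nat.mul_le_mul_left _ hBM
    have h3 : B ^ 3 ≤ M0 ^ 3 * Y ^ 3 := by
      calc B ^ 3 ≤ (M0 * Y) ^ 3 := Nat.pow_le_pow_left h1 3
        _ = M0 ^ 3 * Y ^ 3 := by ring
    by_contra hcon
    have h4 : Y ^ 3 < B := by omega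
    have h5 : M0 ^ 3 * Y ^ 3 < (M0 + 1) ^ 3 * B := by
      calc M0 ^ 3 * Y ^ 3 ≤ (M0 + 1) ^ 3 * Y ^ 3 := Nat.mul_le_mul_right _ (Nat.pow_le_pow_left (by omega) 3)
        _ < (M0 + 1) ^ 3 * B := Nat.mul_lt_mul_of_pos_left h4 (by positivity)
    have h6 : (M0 + 1) ^ 3 * B ≤ B ^ 3 := by
      calc (M0 + 1) ^ 3 * B = B * (M0 + 1) ^ 3 := by ring
        _ ≤ B * B := h2
        _ = B ^ 2 := by ring
        _ ≤ B ^ 3 := Nat.pow_le_pow_right hB1 (by norm_num)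
    omega
  have hYB2 : Y ≤ B ^ 2 := by
    calc Y ≤ K * B := hY2
      _ ≤ B * B := Nat.mul_le_mul_right _ hBK
      _ = B ^ 2 := by ring
  have ha0 : a ≠ 0 := ha
  have hmz : (m : ℤ) ≠ 0 := by exact_mod_cast hm0.ne'
  have hmz' : (m' : ℤ) ≠ 0 := by exact_mod_cast hm0'.ne'
  have hpr : ∀ p : ℕ, p.Prime → y < p → ¬ (p : ℤ) ∣ (a * m) * (a * m') := by
    intro p hp hyp hd
    have h5 : (p : ℤ) ∣ a * m ∨ (p : ℤ) ∣ a * m' := (Nat.prime_iff_prime_int.1 hp).dvd_or_dvd hd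
    have hpa : ¬ (p : ℤ) ∣ a := not_dvd_a ha haw (by omega)
    have h6 : p ∣ m ∨ p ∣ m' := by
      rcases h5 with h5 | h5
      · left
        rcases (Nat.prime_iff_prime_int.1 hp).dvd_or_dvd h5 with h5 | h5
        · exact absurd h5 hpa
        · exact Int.natCast_dvd_natCast.1 h5
      · right
        rcases (Nat.prime_iff_prime_int.1 hp).dvd_or_dvd h5 with h5 | h5
        · exact absurd h5 hpa
        · exact Int.natCast_dvd_natCast.1 h5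
    have h7 : p ∣ PP w y := by
      rcases h6 with h6 | h6
      · exact (h6.trans hm).trans hM
      · exact (h6.trans hm').trans hM
    have h8 := (dvd_PP hp h7).2
    omega
  have hbx0 := hB0 B hBB0 z1 X Y M (M / m) (M / m') c (a * m) (a * m') hc hcB hz1 hz1k hM
    (hMM.trans (Nat.le_mul_of_pos_left _ han))
    (Nat.div_dvd_of_dvd hm) (Nat.div_dvd_of_dvd hm') (mul_ne_zero ha0 hmz) (mul_ne_zero ha0 hmz')
    (by rw [natAbs_am]; exact Nat.mul_le_mul_left _ hmM0)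
    (by rw [natAbs_am]; exact Nat.mul_le_mul_left _ hmM0') hpr hX hX2 hYB hYB2
  have hcm := const_mono (k := k) hK1' han hlogy
  rw [← hKe] at hcm
  have hbx := hbx0.trans (mul_le_mul_of_nonneg_right (add_le_add_left hcm (ε ^ 4 / 192))
    (by positivity : (0 : ℝ) ≤ (X : ℝ) * Y * (X / ((M / m : ℕ) : ℝ)) * (X / ((M / m' : ℕ) : ℝ))))
  set G := ∑ t ∈ Icc (-((X / (M / m) : ℕ) : ℤ)) ((X / (M / m) : ℕ) : ℤ),
    ∑ r ∈ Icc (-((X / (M / m') : ℕ) : ℤ)) ((X / (M / m') : ℕ) : ℤ),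
    |∑ x ∈ Icc (1 : ℤ) X, ∑ s ∈ Icc (1 : ℤ) Y, fB c w y z z1 X Y M x s *
      fB c w y z z1 X Y M (x + t * ↑(M / m)) (s + t * (a * m)) *
      fB c w y z z1 X Y M (x + r * ↑(M / m')) (s + r * (a * m')) *
      fB c w y z z1 X Y M (x + t * ↑(M / m) + r * ↑(M / m')) (s + t * (a * m) + r * (a * m'))| with hGd
  set S := ∑ x ∈ Icc 1 X, ∑ t ∈ Icc 1 Y, rg w y x * rg w y t * dz z z1 ((M : ℤ) * x * t + c) *
      F (((M / m : ℕ) : ℤ) * t - a * (m * x)) * F (((M / m' : ℕ) : ℤ) * t - a * (m' * x)) with hS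
  have eS : ∑ x ∈ Icc (1 : ℤ) X, ∑ t ∈ Icc (1 : ℤ) Y, fB c w y z z1 X Y M x t *
      F (((M / m : ℕ) : ℤ) * t - a * m * x) * F (((M / m' : ℕ) : ℤ) * t - a * m' * x) = S := by
    rw [sum_Icc_int X (fun x : ℤ => ∑ t ∈ Icc (1 : ℤ) Y, fB c w y z z1 X Y M x t *
      F (((M / m : ℕ) : ℤ) * t - a * m * x) * F (((M / m' : ℕ) : ℤ) * t - a * m' * x)), hS]
    apply sum_congr rfl
    intro x hx
    rw [sum_Icc_int Y (fun t : ℤ => fB c w y z z1 X Y M (x : ℤ) t *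
      F (((M / m : ℕ) : ℤ) * t - a * m * (x : ℤ)) * F (((M / m' : ℕ) : ℤ) * t - a * m' * (x : ℤ)))]
    apply sum_congr rfl
    intro t ht
    rw [mem_Icc] at hx ht
    unfold fB
    rw [if_pos (by omega), mul_assoc a (m : ℤ) (x : ℤ), mul_assoc a (m' : ℤ) (x : ℤ)]
  rw [eS] at hg
  have hAr : (0 : ℝ) < ((M / m : ℕ) : ℝ) := by exact_mod_cast hA0
  have hAr' : (0 : ℝ) < ((M / m' : ℕ) : ℝ) := by exact_mod_cast hA0'
  have hXr : (0 : ℝ) < X := by exact_mod_cast hX1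
  have hYr : (0 : ℝ) < Y := by exact_mod_cast hY1
  have hBr : (0 : ℝ) < B := by exact_mod_cast hB1
  set err : ℝ := K' * Real.log y ^ K' * (2 : ℝ) ^ (-((k : ℝ) / K')) + ε ^ 4 / 192 with herr
  have herr0 : 0 ≤ err := by positivity
  have h4 : S ^ 4 ≤ 192 * err * ((X : ℝ) * Y) ^ 4 := by
    have h1 : S ^ 4 ≤ ((4 * B : ℕ) : ℝ) ^ 3 * (3 * X / ((M / m : ℕ) : ℝ)) *
        (err * ((X : ℝ) * Y * (X / ((M / m : ℕ) : ℝ)) * (X / ((M / m' : ℕ) : ℝ)))) := by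
      refine hg.trans ?_
      apply mul_le_mul_of_nonneg_left hbx (by positivity)
    have h2 : ((4 * B : ℕ) : ℝ) ^ 3 ≤ 64 * (((M / m : ℕ) : ℝ) ^ 2 * ((M / m' : ℕ) : ℝ) * (Y : ℝ) ^ 3) := by
      have e1 : (B : ℝ) ≤ ((M / m : ℕ) : ℝ) * Y := by exact_mod_cast hY
      have e2 : (B : ℝ) ≤ ((M / m' : ℕ) : ℝ) * Y := by exact_mod_cast hY'
      calc ((4 * B : ℕ) : ℝ) ^ 3 = 64 * (B * B * B) := by push_cast; ring
        _ ≤ 64 * ((((M / m : ℕ) : ℝ) * Y) * (((M / m : ℕ) : ℝ) * Y) * (((M / m' : ℕ) : ℝ) * Y)) := by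
            gcongr
        _ = _ := by ring
    calc S ^ 4 ≤ ((4 * B : ℕ) : ℝ) ^ 3 * (3 * X / ((M / m : ℕ) : ℝ)) *
        (err * ((X : ℝ) * Y * (X / ((M / m : ℕ) : ℝ)) * (X / ((M / m' : ℕ) : ℝ)))) := h1
      _ ≤ (64 * (((M / m : ℕ) : ℝ) ^ 2 * ((M / m' : ℕ) : ℝ) * (Y : ℝ) ^ 3)) * (3 * X / ((M / m : ℕ) : ℝ)) *
        (err * ((X : ℝ) * Y * (X / ((M / m : ℕ) : ℝ)) * (X / ((M / m' : ℕ) : ℝ)))) := by
          gcongr
      _ = 192 * err * ((X : ℝ) * Y) ^ 4 := by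
          field_simp
          ring
  have hK0 : (0 : ℝ) < K' := by exact_mod_cast hK'
  have hK1 : (1 : ℝ) ≤ K' := by exact_mod_cast hK'
  apply le_of_pow_le_pow_left₀ (by norm_num : (4 : ℕ) ≠ 0) (by positivity)
  rw [Even.pow_abs (by decide : Even 4)]
  refine h4.trans ?_
  rw [mul_pow (_ + ε) ((X : ℝ) * Y) 4]
  apply mul_le_mul_of_nonneg_right _ (by positivity)
  set α : ℝ := ((4 * K' : ℕ) : ℝ) * Real.log y ^ (4 * K') * (2 : ℝ) ^ (-((k : ℝ) / ((4 * K' : ℕ) : ℝ))) with hα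
  have hα0 : 0 ≤ α := by positivity
  have h5 : α ^ 4 + ε ^ 4 ≤ (α + ε) ^ 4 := by
    have : (α + ε) ^ 4 = α ^ 4 + ε ^ 4 + (4 * α ^ 3 * ε + 6 * α ^ 2 * ε ^ 2 + 4 * α * ε ^ 3) := by ring
    have h6 : 0 ≤ 4 * α ^ 3 * ε + 6 * α ^ 2 * ε ^ 2 + 4 * α * ε ^ 3 := by positivity
    linarith
  refine le_trans ?_ h5
  have h7 : 192 * err = 192 * (K' * Real.log y ^ K' * (2 : ℝ) ^ (-((k : ℝ) / K'))) + ε ^ 4 := by
    rw [herr]; ring
  rw [h7]
  apply add_le_add _ le_rfl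
  have h8 : α ^ 4 = (4 * K') ^ 4 * (Real.log y ^ (4 * K')) ^ 4 * (2 : ℝ) ^ (-((k : ℝ) / K')) := by
    rw [hα, mul_pow, mul_pow, ← Real.rpow_natCast ((2 : ℝ) ^ _) 4, ← Real.rpow_mul (by norm_num)]
    congr 2
    · push_cast; ring
    · push_cast
      field_simp
  rw [h8]
  have h9 : 192 * (K' : ℝ) ≤ (4 * K') ^ 4 := by
    have : (4 * (K' : ℝ)) ^ 4 = 256 * K' ^ 4 := by ring
    rw [this]
    have h10 : (K' : ℝ) ≤ K' ^ 4 := le_self_pow₀ hK1 (by norm_num)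
    linarith
  have h10 : Real.log y ^ K' ≤ (Real.log y ^ (4 * K')) ^ 4 := by
    rw [← pow_mul]
    exact pow_le_pow_right₀ hlogy (by omega)
  calc 192 * (K' * Real.log y ^ K' * (2 : ℝ) ^ (-((k : ℝ) / K')))
      = (192 * K') * Real.log y ^ K' * (2 : ℝ) ^ (-((k : ℝ) / K')) := by ring
    _ ≤ _ := by gcongr

end Pool.Agent.N433.QV
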